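import Mathlib
import Pool.Agent.R440.D518.C

/-!
# Q1: all `a_n` are positive integers

A WZ pair (a Dougall `₇F₆` seed) gives, with `N = n+1`,
`a_n = (N/16) ∑_{2k+1 ≤ N} (2k+1) T(N,k)²`,
`T(N,k) = (2N+2k)! (2N-2k-2)! / ((N+k)! (N-k-1)! (N+2k+1)! (N-2k-1)!)`.
Each term is `p`-integral for odd `p`; at `2` the terms are paired.
-/

set_option autoImplicit false

namespace Pool.Agent.Results.MP_d51828_nt.Integrality

/-- Q1. The sequence `a` defined by `a 1 = 2` and the recurrence for `n ≥ 2` consists of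
positive integers. -/
theorem result (a : ℕ → ℚ) (h1 : a 1 = 2)
    (hrec : ∀ n : ℕ, 2 ≤ n → (2 * (n : ℚ) + 1) ^ 3 * a n = 32 * (n : ℚ) ^ 3 * a (n - 1) +
      (21 * (n : ℚ) ^ 3 + 22 * (n : ℚ) ^ 2 + 8 * (n : ℚ) + 1) *
        ((2 * n - 1).choose n : ℚ) ^ 4) :
    ∀ n : ℕ, 1 ≤ n → ∃ z : ℤ, a n = z ∧ 0 < z := by
  intro n hn
  obtain ⟨z, hz⟩ := Pool.Agent.R440.D518.a_int a h1 hrec n hn
  refine ⟨z, hz, ?_⟩
  have := Pool.Agent.R440.D518.a_pos a h1 hrec n hn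
  rw [hz] at this
  exact_mod_cast this

end Pool.Agent.Results.MP_d51828_nt.Integrality
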