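import Mathlib
import Pool.Agent.R440.D518.C

/-!
# Q2: `a_n` is odd iff `n = 2^k` with `k ≥ 1`

2-adic analysis of the terms of the closed form
`a_n = (N/16) ∑_{2k+1 ≤ N} (2k+1) T(N,k)²`, `N = n+1`.
-/

set_option autoImplicit false

namespace Pool.Agent.Results.MP_d51828_nt.ParityCriterion

open Pool.Agent.R440 Pool.Agent.R440.D518

/-- Q2. For the sequence `a` defined by `a 1 = 2` and the recurrence for `n ≥ 2`, the number
`a n` (`n ≥ 1`) is an odd integer if and only if `n = 2 ^ k` for some `k ≥ 1`. -/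
theorem result (a : ℕ → ℚ) (h1 : a 1 = 2)
    (hrec : ∀ n : ℕ, 2 ≤ n → (2 * (n : ℚ) + 1) ^ 3 * a n = 32 * (n : ℚ) ^ 3 * a (n - 1) +
      (21 * (n : ℚ) ^ 3 + 22 * (n : ℚ) ^ 2 + 8 * (n : ℚ) + 1) *
        ((2 * n - 1).choose n : ℚ) ^ 4) :
    ∀ n : ℕ, 1 ≤ n → ((∃ z : ℤ, a n = z ∧ Odd z) ↔ ∃ k : ℕ, 1 ≤ k ∧ n = 2 ^ k) := by
  intro n hn
  have hpar := parity a h1 hrec n hn
  constructor
  · rintro ⟨z, hz, hodd⟩
    by_contra hne
    have h2 := hpar.2 hne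
    rw [hz] at h2
    exact (Int.not_even_iff_odd.mpr hodd) (even_of_Ev h2)
  · intro h
    obtain ⟨z, hz⟩ := a_int a h1 hrec n hn
    refine ⟨z, hz, ?_⟩
    have h2 := hpar.1 h
    rw [hz] at h2
    have h3 : Ev ((z - 1 : ℤ) : ℚ) := by push_cast; exact h2
    have h4 := even_of_Ev h3
    rcases h4 with ⟨w, hw⟩
    exact ⟨w, by omega⟩

end Pool.Agent.Results.MP_d51828_nt.ParityCriterion
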